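import Mathlib

set_option autoImplicit false

namespace Pool.Agent.H.MP_47ad0a_co

open Finset

def force (n : ℕ) (f : ℕ → ℕ) : ℕ := Nat.rec (f 0) (fun k _ => f (Nat.succ k)) n

theorem force_eq (n : ℕ) (f : ℕ → ℕ) : force n f = f n := by cases n <;> rfl

def rep (blk P : ℕ) (t : ℕ) : ℕ :=
  Nat.rec blk (fun i X => force X fun Y => Y ||| (Y <<< (P * 2 ^ i))) t

theorem rep_spec (blk P t : ℕ) : ∀ p, p < P * 2 ^ t → blk.testBit (p % P) = true →
    (rep blk P t).testBit p = true := by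
  induction t with
  | zero => intro p h1 h2; rw [Nat.mod_eq_of_lt (by simpa using h1)] at h2; exact h2
  | succ t ih =>
    intro p h1 h2
    have : rep blk P (t + 1) = rep blk P t ||| (rep blk P t <<< (P * 2 ^ t)) :=
      force_eq (rep blk P t) (fun Y => Y ||| (Y <<< (P * 2 ^ t)))
    rw [this, Nat.testBit_or, Nat.testBit_shiftLeft]
    by_cases h : p < P * 2 ^ t
    · simp [ih p h h2]
    · have h3 : p - P * 2 ^ t < P * 2 ^ t := by rw [pow_succ, ← mul_assoc] at h1; omega
      have h4 : (p - P * 2 ^ t) % P = p % P := by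
        conv_rhs => rw [← Nat.sub_add_cancel (not_lt.1 h), Nat.add_mul_mod_self_left]
      simp [ih _ h3 (h4 ▸ h2), not_lt.1 h]

def msk (j a : ℕ) : ℕ :=
  rep ((2 ^ 3 ^ j - 1) <<< (a * 3 ^ j)) (3 ^ j * 3) (19 - 8 * j / 5) % 2 ^ (8 * 59049)

theorem msk_spec (j a p : ℕ) (hj : j < 10) (hp : p < 8 * 59049) (h : p / 3 ^ j % 3 = a) :
    (msk j a).testBit p = true := by
  unfold msk
  rw [Nat.testBit_mod_two_pow]
  have h1 : 8 * 59049 ≤ 3 ^ j * 3 * 2 ^ (19 - 8 * j / 5) := by interval_cases j <;> norm_num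
  have h3 : 0 < 3 ^ j := by positivity
  rw [rep_spec _ _ _ p (by omega)]
  · simp [hp]
  · rw [← Nat.mod_mul_right_div_self] at h
    generalize p % (3 ^ j * 3) = r at h
    have h4 := Nat.div_add_mod r (3 ^ j)
    have h5 := Nat.mod_lt r h3
    rw [h, mul_comm] at h4
    rw [Nat.testBit_shiftLeft, Nat.testBit_two_pow_sub_one]
    simp; omega

def a2 (a : ℕ) (s : Bool) : ℕ := if s = true ∧ a = 0 then 1 else a
def ee (a b : ℕ) (s : Bool) : ℕ := if s = true then 2 else if a = 2 ∨ b = 2 then 1 else 0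
def cf (j a b : ℕ) (s : Bool) : ℕ :=
  ((if a = 2 then 1 else 0) + (if b = 2 then 1 else 0) + s.toNat - 1 + (if j = 0 then s.toNat else 0))
    + (if j ≠ 0 ∧ s = true ∧ a ≠ 0 then 1 else 0) + (if s = true ∧ b ≠ 0 then 1 else 0)
def pl (j : ℕ) : ℕ := if j = 0 then 0 else 3 ^ (j - 1)

def pc (j Y a b : ℕ) (s : Bool) : ℕ :=
  if b = 0 ∧ j < 9 ∧ s = false then 0 else Y <<< (a2 a s * pl j + ee a b s * 3 ^ j + cf j a b s * 59049)

def pb (j X a b : ℕ) : ℕ :=
  force ((X &&& msk j b) >>> (a * pl j + b * 3 ^ j)) fun Y => pc j Y a b false ||| pc j Y a b true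

def pa (j X a : ℕ) : ℕ :=
  if j = 0 ∧ a ≠ 1 then 0 else
    force (if j = 0 then X else X &&& msk (j - 1) a) fun Y => pb j Y a 0 ||| pb j Y a 1 ||| pb j Y a 2

def step (j X : ℕ) : ℕ := pa j X 0 ||| pa j X 1 ||| pa j X 2

theorem step_spec (j X a b p p' : ℕ) (s : Bool) (hj : j < 10) (hp : p < 8 * 59049)
    (hX : X.testBit p = true) (ha : if j = 0 then a = 1 else p / 3 ^ (j - 1) % 3 = a)
    (hb : p / 3 ^ j % 3 = b) (hok : ¬(b = 0 ∧ j < 9 ∧ s = false))
    (hle : a * pl j + b * 3 ^ j ≤ p)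
    (hp' : p' + (a * pl j + b * 3 ^ j) =
      p + (a2 a s * pl j + ee a b s * 3 ^ j + cf j a b s * 59049)) :
    (step j X).testBit p' = true := by
  have ha3 : a < 3 := by split_ifs at ha <;> omega
  have hb3 : b < 3 := by omega
  have h1 : (if j = 0 then X else X &&& msk (j - 1) a).testBit p = true := by
    split_ifs at ha ⊢
    · exact hX
    · rw [Nat.testBit_and, hX, msk_spec _ _ _ (by omega) hp ha]; rfl
  have h2 : ∀ Y : ℕ, Y.testBit p = true → (pb j Y a b).testBit p' = true := by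
    intro Y hY
    have h3 : ((Y &&& msk j b) >>> (a * pl j + b * 3 ^ j)).testBit
        (p - (a * pl j + b * 3 ^ j)) = true := by
      rw [Nat.testBit_shiftRight, Nat.add_sub_cancel' hle, Nat.testBit_and, hY,
        msk_spec _ _ _ hj hp hb]; rfl
    unfold pb
    rw [force_eq]
    generalize (Y &&& msk j b) >>> (a * pl j + b * 3 ^ j) = Z at h3
    have h4 : (pc j Z a b s).testBit p' = true := by
      unfold pc
      rw [if_neg hok, Nat.testBit_shiftLeft]
      generalize a2 a s * pl j + ee a b s * 3 ^ j + cf j a b s * 59049 = w at hp'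
      generalize a * pl j + b * 3 ^ j = v at *
      have : p' - w = p - v := by omega
      rw [this, h3]; simp; omega
    rw [Nat.testBit_or]
    cases s <;> simp [h4]
  have h5 : (pa j X a).testBit p' = true := by
    unfold pa
    rw [if_neg (by rintro ⟨h, h'⟩; rw [if_pos h] at ha; exact h' ha), force_eq]
    have := h2 _ h1
    simp only [Nat.testBit_or]
    interval_cases b <;> simp [this]
  unfold step
  simp only [Nat.testBit_or]
  interval_cases a <;> simp [h5]

def steps (X : ℕ) (t : ℕ) : ℕ := Nat.rec X (fun j Y => force Y fun Z => step j Z) t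

theorem steps_succ (X t : ℕ) : steps X (t + 1) = step t (steps X t) := force_eq _ _

def good (X : ℕ) : Prop :=
  force (steps (X ||| ((2 ^ 59049 - 1) <<< (7 * 59049))) 10)
    (fun Y => Y % 2 ^ 59049 + ((((Y >>> 59049) % 2 ^ (7 * 59049)) ||| X) ^^^ X)) = 0

instance (X : ℕ) : Decidable (good X) := by unfold good; infer_instance

end Pool.Agent.H.MP_47ad0a_co
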