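import Pool.Agent.H.MP_47ad0a_co.X

set_option autoImplicit false

namespace Pool.Agent.H.MP_47ad0a_co

open Finset

variable (E : ℕ → ℕ → Bool)

def st (j x y : ℕ) : ℕ :=
  if E x (y + 1) = true then 2 else
    if E x y = true ∨ (0 < x ∧ E (x - 1) (y + 1) = true) ∨ (x + 1 < j ∧ E (x + 1) (y + 1) = true)
      then 1 else 0

def dig (j y x : ℕ) : ℕ := if x < j then st E j x (y + 1) else st E 10 x y

def idx (d : ℕ → ℕ) (l : ℕ) : ℕ :=
  d 0 + 3 * d 1 + 9 * d 2 + 27 * d 3 + 81 * d 4 + 243 * d 5 + 729 * d 6 + 2187 * d 7 +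
    6561 * d 8 + 19683 * d 9 + 59049 * l

theorem idx_dig (d : ℕ → ℕ) (h : ∀ x, d x < 3) (l j : ℕ) (hj : j < 10) :
    idx d l / 3 ^ j % 3 = d j := by
  have := h 0; have := h 1; have := h 2; have := h 3; have := h 4
  have := h 5; have := h 6; have := h 7; have := h 8; have := h 9
  unfold idx
  interval_cases j <;> norm_num <;> omega

theorem idx_bd (d : ℕ → ℕ) (h : ∀ x, d x < 3) (l : ℕ) :
    idx d l = idx d 0 + 59049 * l ∧ idx d 0 < 59049 := by
  have := h 0; have := h 1; have := h 2; have := h 3; have := h 4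
  have := h 5; have := h 6; have := h 7; have := h 8; have := h 9
  unfold idx
  omega

theorem idx_upd (d d' : ℕ → ℕ) (l c j a : ℕ) (hj : j < 10)
    (h : ∀ x, x ≠ j → x + 1 ≠ j → d' x = d x) (ha : j ≠ 0 → a = d (j - 1)) (a' : ℕ)
    (ha' : j ≠ 0 → a' = d' (j - 1)) :
    a * pl j + d j * 3 ^ j ≤ idx d l ∧ idx d' (l + c) + (a * pl j + d j * 3 ^ j) =
      idx d l + (a' * pl j + d' j * 3 ^ j + c * 59049) := by
  have := h 0; have := h 1; have := h 2; have := h 3; have := h 4
  have := h 5; have := h 6; have := h 7; have := h 8; have := h 9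
  unfold idx pl
  interval_cases j <;> norm_num at * <;> omega

theorem st_lt (j x y : ℕ) : st E j x y < 3 := by unfold st; split_ifs <;> omega

theorem dig_lt (j y x : ℕ) : dig E j y x < 3 := by unfold dig; split_ifs <;> exact st_lt ..

def la (j y : ℕ) : ℕ := if j = 0 then 1 else st E j (j - 1) (y + 1)

def cst (j y : ℕ) : ℕ := cf j (la E j y) (st E 10 j y) (E j (y + 2))

def Dom (x y : ℕ) : Prop :=
  E x (y + 1) = true ∨ E x y = true ∨ (0 < x ∧ E (x - 1) (y + 1) = true) ∨
    E (x + 1) (y + 1) = true ∨ E x (y + 2) = true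

theorem cell_step (j y l X : ℕ) (hj : j < 10) (hd : Dom E j y)
    (h : 7 < l ∨ X.testBit (idx (dig E j y) l) = true) :
    7 < l + cst E j y ∨ (step j X).testBit (idx (dig E (j + 1) y) (l + cst E j y)) = true := by
  by_cases hl : 7 < l
  · left; omega
  right
  have h := h.resolve_left hl
  have hb : dig E j y j = st E 10 j y := by simp [dig]
  have h1 := idx_upd (dig E j y) (dig E (j + 1) y) l (cst E j y) j (la E j y) hj
    (by
      intro x h1 h2
      unfold dig
      by_cases h3 : x < j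
      · rw [if_pos h3, if_pos (by omega)]
        unfold st
        simp [show x + 1 < j by omega, show x + 1 < j + 1 by omega]
      · rw [if_neg h3, if_neg (by omega)])
    (by intro h0; simp [la, dig, h0, show j - 1 < j by omega])
    (a2 (la E j y) (E j (y + 2)))
    (by
      intro h0
      obtain ⟨i, rfl⟩ : ∃ i, j = i + 1 := ⟨j - 1, by omega⟩
      simp only [la, dig, a2, st]
      simp
      grind)
  have he : dig E (j + 1) y j = ee (la E j y) (st E 10 j y) (E j (y + 2)) := by
    simp only [la, dig, ee, st]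
    simp
    grind
  have h2 := idx_bd (dig E j y) (dig_lt E j y) l
  refine step_spec j X (la E j y) (st E 10 j y) _ _ (E j (y + 2)) hj (by omega) h ?_ ?_ ?_ ?_ ?_
  · split_ifs with h0
    · simp [la, h0]
    · rw [idx_dig _ (dig_lt E j y) _ _ (by omega)]
      simp [la, dig, h0, show j - 1 < j by omega]
  · rw [idx_dig _ (dig_lt E j y) _ _ hj, hb]
  · unfold Dom at hd
    unfold st
    grind
  · rw [← hb]; exact h1.1
  · have := h1.2
    rw [he, hb] at this
    exact this

theorem row_steps (y l X : ℕ) (hd : ∀ j < 10, Dom E j y)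
    (h : 7 < l ∨ X.testBit (idx (dig E 0 y) l) = true) : ∀ t ≤ 10,
    7 < l + ∑ j ∈ range t, cst E j y ∨
      (steps X t).testBit (idx (dig E t y) (l + ∑ j ∈ range t, cst E j y)) = true := by
  intro t ht
  induction t with
  | zero => simpa [steps] using h
  | succ t ih =>
    rw [steps_succ, sum_range_succ, ← add_assoc]
    exact cell_step E t y _ _ (by omega) (hd t (by omega)) (ih (by omega))

theorem row_step (y l : ℕ) (hd : ∀ j < 10, Dom E j y)
    (h : 7 ≤ l ∨ X0.testBit (idx (dig E 0 y) l) = true) :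
    ∃ l', l' + 1 = l + ∑ j ∈ range 10, cst E j y ∧
      (7 ≤ l' ∨ X0.testBit (idx (dig E 0 (y + 1)) l') = true) := by
  have hg := good_X0
  unfold good at hg
  rw [force_eq] at hg
  generalize X0 = X at *
  have h0 := idx_bd (dig E 0 y) (dig_lt E 0 y) l
  have h1 := row_steps E y l (X ||| ((2 ^ 59049 - 1) <<< (7 * 59049))) hd (by
    by_cases h7 : 7 < l
    · exact Or.inl h7
    right
    rw [Nat.testBit_or]
    rcases h with h | h
    · rw [Nat.testBit_shiftLeft, Nat.testBit_two_pow_sub_one]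
      have : 7 * 59049 ≤ idx (dig E 0 y) l ∧ idx (dig E 0 y) l - 7 * 59049 < 59049 := by omega
      rw [decide_eq_true this.1, decide_eq_true this.2]; simp
    · rw [h]; rfl) 10 le_rfl
  generalize steps _ 10 = Y at h1 hg
  generalize l + ∑ j ∈ range 10, cst E j y = L at h1 ⊢
  have he : idx (dig E 10 y) = idx (dig E 0 (y + 1)) := by
    funext l; simp [idx, dig]
  rw [he] at h1
  have hb := fun l => idx_bd (dig E 0 (y + 1)) (dig_lt E 0 (y + 1)) l
  generalize idx (dig E 0 (y + 1)) = I at *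
  by_cases h7 : 7 < L
  · exact ⟨L - 1, by omega, Or.inl (by omega)⟩
  have h1 := h1.resolve_left h7
  have hg1 : Y % 2 ^ 59049 = 0 := Nat.eq_zero_of_add_eq_zero_right hg
  have hg2 := Nat.eq_of_xor_eq_zero (Nat.eq_zero_of_add_eq_zero_left hg)
  have hL : L ≠ 0 := by
    rintro rfl
    have := Nat.testBit_mod_two_pow Y 59049 (I 0)
    rw [hg1, h1, decide_eq_true (hb 0).2] at this
    simp at this
  refine ⟨L - 1, by omega, Or.inr ?_⟩
  have h2 := hb L
  have h3 := hb (L - 1)
  rw [← hg2, Nat.testBit_or, Nat.testBit_mod_two_pow, Nat.testBit_shiftRight,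
    show 59049 + I (L - 1) = I L by omega, h1,
    decide_eq_true (show I (L - 1) < 7 * 59049 by omega)]
  rfl

def mu (x y : ℕ) : ℕ :=
  (E x (y + 1)).toNat + (E (x - 1) (y + 1)).toNat + (E (x + 1) (y + 1)).toNat + (E x y).toNat +
    (E x (y + 2)).toNat

def al (x y : ℕ) : ℕ :=
  (if 0 < x ∧ E (x - 1) (y + 1) = true then 1 else 0) + (E x y).toNat + (E x (y + 1)).toNat - 1 +
    (if x = 0 then (E x (y + 1)).toNat else 0)

def be (x y : ℕ) : ℕ :=
  if x < 9 ∧ E (x + 1) (y + 1) = true ∧ st E (x + 1) x y ≠ 0 then 1 else 0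

def ga (x y : ℕ) : ℕ := if E x (y + 2) = true ∧ st E 10 x y ≠ 0 then 1 else 0

theorem cell_le (x y : ℕ) (hx : x < 10) (h : Dom E x y) :
    al E x y + be E x y + ga E x y + 1 ≤ mu E x y := by
  unfold Dom at h
  unfold al be ga mu st
  rcases Nat.eq_zero_or_pos x with rfl | h0
  · cases h1 : E 0 (y + 1) <;> cases h2 : E 0 y <;> cases h3 : E 1 (y + 1) <;>
      cases h4 : E 0 (y + 2) <;> simp_all
  · have h9 : x + 1 < 10 ↔ x < 9 := by omega
    by_cases h8 : x < 9 <;> cases h1 : E x (y + 1) <;> cases h2 : E x y <;>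
      cases h3 : E (x + 1) (y + 1) <;>
      cases h4 : E x (y + 2) <;> cases h5 : E (x - 1) (y + 1) <;> simp_all [h0.ne'] <;>
      split_ifs <;> omega

theorem cst_eq (j y : ℕ) (hj : j < 10) : cst E j y =
    al E j (y + 1) + (if j = 0 then 0 else be E (j - 1) (y + 1)) + ga E j y := by
  unfold cst cf la al be ga
  have h2 : st E 10 j y = 2 ↔ E j (y + 1) = true := by unfold st; grind
  rcases j with _ | j
  · cases h1 : E 0 (y + 1) <;> simp_all
  · have h3 : st E (j + 1) j (y + 1) = 2 ↔ E j (y + 2) = true := by unfold st; grind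
    have h4 : j < 9 := by omega
    cases h1 : E (j + 1) (y + 1) <;> simp_all

theorem strip (Y : ℕ) (hd : ∀ y ≤ Y, ∀ j < 10, Dom E j y) :
    11 * Y + 3 ≤ ∑ y ∈ range (Y + 1), ∑ x ∈ range 10, mu E x y := by
  have key : ∀ y ≤ Y, ∃ l, (7 ≤ l ∨ X0.testBit (idx (dig E 0 y) l) = true) ∧
      l + 11 * y ≤ 7 + ∑ z ∈ range y, ∑ x ∈ range 10, mu E x z +
        ∑ x ∈ range 10, (al E x y + be E x y) := by
    intro y hy
    induction y with
    | zero => exact ⟨7, Or.inl le_rfl, by omega⟩
    | succ y ih =>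
      obtain ⟨l, h1, h2⟩ := ih (by omega)
      obtain ⟨l', h3, h4⟩ := row_step E y l (hd y (by omega)) h1
      refine ⟨l', h4, ?_⟩
      have h5 : ∑ j ∈ range 10, cst E j y = ∑ x ∈ range 10, (al E x (y + 1) + be E x (y + 1)) +
          ∑ x ∈ range 10, ga E x y := by
        rw [sum_congr rfl fun j hj => cst_eq E j y (mem_range.1 hj)]
        have : be E 9 (y + 1) = 0 := by simp [be]
        simp only [sum_range_succ, sum_range_zero, this]
        norm_num
        omega
      have h6 : ∑ x ∈ range 10, (al E x y + be E x y + ga E x y + 1) ≤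
          ∑ x ∈ range 10, mu E x y :=
        sum_le_sum fun x hx => cell_le E x y (mem_range.1 hx) (hd y (by omega) x (mem_range.1 hx))
      rw [sum_add_distrib, sum_add_distrib] at h6
      rw [sum_range_succ]
      simp only [sum_const, card_range, smul_eq_mul] at h6
      omega
  obtain ⟨l, -, h2⟩ := key Y le_rfl
  have h6 : ∑ x ∈ range 10, (al E x Y + be E x Y + ga E x Y + 1) ≤ ∑ x ∈ range 10, mu E x Y :=
    sum_le_sum fun x hx => cell_le E x Y (mem_range.1 hx) (hd Y le_rfl x (mem_range.1 hx))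
  rw [sum_add_distrib, sum_add_distrib] at h6
  rw [sum_range_succ]
  simp only [sum_const, card_range, smul_eq_mul] at h6
  omega

end Pool.Agent.H.MP_47ad0a_co
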