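import Pool.Agent.H.MP_47ad0a_co.B

set_option autoImplicit false

namespace Pool.Agent.H.MP_47ad0a_co

open Finset

theorem row2 (f : ℕ → ℕ) (k : ℕ) :
    ∑ x ∈ range (k + 1), f (x - 1) + ∑ x ∈ range (k + 1), f (min (x + 1) k) =
      2 * ∑ x ∈ range (k + 1), f x := by
  have h1 := sum_range_succ' (fun x => f (x - 1)) k
  have h2 := sum_range_succ (fun x => f (min (x + 1) k)) k
  have h3 : ∑ x ∈ range k, f (min (x + 1) k) = ∑ x ∈ range k, f (x + 1) :=
    sum_congr rfl fun x hx => by rw [min_eq_left (by simpa using hx)]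
  have h4 := sum_range_succ f k
  have h5 := sum_range_succ' f k
  simp only [add_tsub_cancel_right, zero_tsub, min_eq_right (Nat.le_succ k)] at h1 h2
  omega

def MM (E : ℕ → ℕ → Bool) (k x y : ℕ) : ℕ :=
  (E x y).toNat + ((E (x - 1) y).toNat + (E (min (x + 1) k) y).toNat) +
    ((E x (y - 1)).toNat + (E x (min (y + 1) k)).toNat)

theorem sum_MM (E : ℕ → ℕ → Bool) (k : ℕ) :
    ∑ x ∈ range (k + 1), ∑ y ∈ range (k + 1), MM E k x y =
      5 * ∑ x ∈ range (k + 1), ∑ y ∈ range (k + 1), (E x y).toNat := by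
  have h1 := row2 (fun x => ∑ y ∈ range (k + 1), (E x y).toNat) k
  have h2 : ∑ x ∈ range (k + 1), (∑ y ∈ range (k + 1), (E x (y - 1)).toNat +
      ∑ y ∈ range (k + 1), (E x (min (y + 1) k)).toNat) =
      2 * ∑ x ∈ range (k + 1), ∑ y ∈ range (k + 1), (E x y).toNat := by
    rw [mul_sum]
    exact sum_congr rfl fun x _ => row2 (fun y => (E x y).toNat) k
  simp only [MM, sum_add_distrib] at *
  omega

def GD (E : ℕ → ℕ → Bool) (n : ℕ) : Prop :=
  ∀ x < n, ∀ y < n, E x y = true ∨ (0 < x ∧ E (x - 1) y = true) ∨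
    (x + 1 < n ∧ E (x + 1) y = true) ∨ (0 < y ∧ E x (y - 1) = true) ∨
    (y + 1 < n ∧ E x (y + 1) = true)

theorem split3 (f : ℕ → ℕ) (K : ℕ) : ∑ x ∈ range (K + 20), f x =
    ∑ x ∈ range 10, f x + ∑ x ∈ range K, f (x + 10) + ∑ x ∈ range 10, f (K + 19 - x) := by
  rw [show K + 20 = 10 + K + 10 by omega, sum_range_add, sum_range_add,
    ← sum_range_reflect (fun x => f (10 + K + x)) 10]
  congr 1
  · congr 1
    exact sum_congr rfl fun x _ => by rw [add_comm]
  · exact sum_congr rfl fun x hx => by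
      rw [mem_range] at hx
      congr 1; omega

theorem lower (E : ℕ → ℕ → Bool) (Y : ℕ) (h : GD E (Y + 21)) :
    (Y + 21) ^ 2 + 4 * (Y + 21) ≤
      5 * ∑ x ∈ range (Y + 21), ∑ y ∈ range (Y + 21), (E x y).toNat + 512 := by
  rw [← sum_MM E (Y + 20)]
  have s1 := strip (fun x y => E x (y + 9)) Y (by
    intro y hy j hj
    have := h j (by omega) (y + 10) (by omega)
    simp only [Dom, show y + 1 + 9 = y + 10 by omega, show y + 2 + 9 = y + 10 + 1 by omega,
      show y + 9 = y + 10 - 1 by omega]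
    tauto)
  have s2 := strip (fun x y => E (Y + 20 - x) (y + 9)) Y (by
    intro y hy j hj
    have := h (Y + 20 - j) (by omega) (y + 10) (by omega)
    simp only [Dom, show y + 1 + 9 = y + 10 by omega, show y + 2 + 9 = y + 10 + 1 by omega,
      show y + 9 = y + 10 - 1 by omega, show Y + 20 - (j + 1) = Y + 20 - j - 1 by omega]
    rcases this with h | h | h | h | h
    · tauto
    · tauto
    · right; right; left
      exact ⟨by omega, by rw [show Y + 20 - (j - 1) = Y + 20 - j + 1 by omega]; exact h.2⟩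
    · tauto
    · tauto)
  have s3 := strip (fun x y => E (y + 9) x) Y (by
    intro y hy j hj
    have := h (y + 10) (by omega) j (by omega)
    simp only [Dom, show y + 1 + 9 = y + 10 by omega, show y + 2 + 9 = y + 10 + 1 by omega,
      show y + 9 = y + 10 - 1 by omega]
    tauto)
  have s4 := strip (fun x y => E (y + 9) (Y + 20 - x)) Y (by
    intro y hy j hj
    have := h (y + 10) (by omega) (Y + 20 - j) (by omega)
    simp only [Dom, show y + 1 + 9 = y + 10 by omega, show y + 2 + 9 = y + 10 + 1 by omega,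
      show y + 9 = y + 10 - 1 by omega, show Y + 20 - (j + 1) = Y + 20 - j - 1 by omega]
    rcases this with h | h | h | h | h
    · tauto
    · tauto
    · tauto
    · tauto
    · right; right; left
      exact ⟨by omega, by rw [show Y + 20 - (j - 1) = Y + 20 - j + 1 by omega]; exact h.2⟩)
  have e1 : ∀ y ∈ range (Y + 1), ∀ x ∈ range 10,
      mu (fun x y => E x (y + 9)) x y = MM E (Y + 20) x (y + 10) ∧
      mu (fun x y => E (Y + 20 - x) (y + 9)) x y = MM E (Y + 20) (Y + 1 + 19 - x) (y + 10) ∧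
      mu (fun x y => E (y + 9) x) x y = MM E (Y + 20) (y + 10) x ∧
      mu (fun x y => E (y + 9) (Y + 20 - x)) x y = MM E (Y + 20) (y + 10) (Y + 1 + 19 - x) := by
    intro y hy x hx
    rw [mem_range] at hx hy
    simp only [mu, MM, show y + 1 + 9 = y + 10 by omega, show y + 2 + 9 = y + 10 + 1 by omega,
      show y + 9 = y + 10 - 1 by omega, show Y + 20 - (x + 1) = Y + 20 - x - 1 by omega,
      show min (x + 1) (Y + 20) = x + 1 by omega, show Y + 1 + 19 = Y + 20 by omega,
      show min (y + 10 + 1) (Y + 20) = y + 10 + 1 by omega,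
      show min (Y + 20 - x + 1) (Y + 20) = Y + 20 - (x - 1) by omega]
    omega
  rw [sum_congr rfl fun y hy => sum_congr rfl fun x hx => (e1 y hy x hx).1, sum_comm] at s1
  rw [sum_congr rfl fun y hy => sum_congr rfl fun x hx => (e1 y hy x hx).2.1, sum_comm] at s2
  rw [sum_congr rfl fun y hy => sum_congr rfl fun x hx => (e1 y hy x hx).2.2.1] at s3
  rw [sum_congr rfl fun y hy => sum_congr rfl fun x hx => (e1 y hy x hx).2.2.2] at s4
  have s5 : (Y + 1) * (Y + 1) ≤ ∑ x ∈ range (Y + 1), ∑ y ∈ range (Y + 1),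
      MM E (Y + 20) (x + 10) (y + 10) := by
    calc _ = ∑ x ∈ range (Y + 1), ∑ y ∈ range (Y + 1), 1 := by simp
      _ ≤ _ := sum_le_sum fun x hx => sum_le_sum fun y hy => by
        rw [mem_range] at hx hy
        have := h (x + 10) (by omega) (y + 10) (by omega)
        simp only [MM, show min (y + 10 + 1) (Y + 20) = y + 10 + 1 by omega,
          show min (x + 10 + 1) (Y + 20) = x + 10 + 1 by omega]
        rcases this with h | ⟨-, h⟩ | ⟨-, h⟩ | ⟨-, h⟩ | ⟨-, h⟩ <;> rw [h] <;> simp <;> omega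
  rw [show Y + 20 + 1 = Y + 1 + 20 by omega]
  simp only [split3, sum_add_distrib]
  nlinarith [Nat.zero_le (∑ x ∈ range 10, ∑ y ∈ range 10, MM E (Y + 20) x y),
    Nat.zero_le (∑ x ∈ range 10, ∑ y ∈ range 10, MM E (Y + 20) x (Y + 1 + 19 - y)),
    Nat.zero_le (∑ x ∈ range 10, ∑ y ∈ range 10, MM E (Y + 20) (Y + 1 + 19 - x) y),
    Nat.zero_le (∑ x ∈ range 10, ∑ y ∈ range 10,
      MM E (Y + 20) (Y + 1 + 19 - x) (Y + 1 + 19 - y))]

end Pool.Agent.H.MP_47ad0a_co
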