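import Mathlib

set_option autoImplicit false

namespace Pool.Agent.H.MP_47ad0a_co

open Finset

def One (s a b c d e : Prop) : Prop :=
  (s ↔ a ∨ b ∨ c ∨ d ∨ e) ∧ (a → ¬b) ∧ (a ∨ b → ¬c) ∧ (a ∨ b ∨ c → ¬d) ∧ (a ∨ b ∨ c ∨ d → ¬e)

def Mod (n : ℕ) (a b z r l u d : ℕ → ℕ → Prop) : Prop :=
  ∀ x < n, ∀ y < n, One (a x y) (z x y) (r x y) (l x y) (u x y) (d x y) ∧
    (r x y → x + 1 < n) ∧ (l x y → 0 < x) ∧ (u x y → y + 1 < n) ∧ (d x y → 0 < y) ∧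
    One (b x y) (z x y) (0 < x ∧ r (x - 1) y) (x + 1 < n ∧ l (x + 1) y)
      (0 < y ∧ u x (y - 1)) (y + 1 < n ∧ d x (y + 1))

open Classical in
noncomputable def cfg (n : ℕ) (a : ℕ → ℕ → Prop) : Finset (Fin n × Fin n) :=
  univ.filter fun p => a p.1 p.2

theorem mem_cfg (n : ℕ) (a : ℕ → ℕ → Prop) (p : Fin n × Fin n) : p ∈ cfg n a ↔ a p.1 p.2 := by
  simp [cfg]

def Move (n : ℕ) (D D' : Finset (Fin n × Fin n)) : Prop :=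
  ∃ f : Fin n × Fin n → Fin n × Fin n,
    Set.InjOn f (D : Set (Fin n × Fin n)) ∧ D.image f = D' ∧
    ∀ x ∈ D, f x = x ∨
      (SimpleGraph.boxProd (SimpleGraph.pathGraph n) (SimpleGraph.pathGraph n)).Adj x (f x)

theorem inj_aux {s a b c d e : Prop} (h : One s a b c d e) {x y x' y' X Y : ℕ}
    (t1 : (a ∧ x = X ∧ y = Y) ∨ (b ∧ x + 1 = X ∧ y = Y) ∨ (c ∧ x = X + 1 ∧ y = Y) ∨
      (d ∧ x = X ∧ y + 1 = Y) ∨ (e ∧ x = X ∧ y = Y + 1))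
    (t2 : (a ∧ x' = X ∧ y' = Y) ∨ (b ∧ x' + 1 = X ∧ y' = Y) ∨ (c ∧ x' = X + 1 ∧ y' = Y) ∨
      (d ∧ x' = X ∧ y' + 1 = Y) ∨ (e ∧ x' = X ∧ y' = Y + 1)) : x = x' ∧ y = y' := by
  obtain ⟨-, h1, h2, h3, h4⟩ := h
  rcases t1 with ⟨a1, a2, a3⟩ | ⟨a1, a2, a3⟩ | ⟨a1, a2, a3⟩ | ⟨a1, a2, a3⟩ | ⟨a1, a2, a3⟩ <;>
    rcases t2 with ⟨b1, b2, b3⟩ | ⟨b1, b2, b3⟩ | ⟨b1, b2, b3⟩ | ⟨b1, b2, b3⟩ | ⟨b1, b2, b3⟩ <;>
    first | omega | (exfalso; tauto)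

theorem move_of_mod {n : ℕ} {a b z r l u d : ℕ → ℕ → Prop} (h : Mod n a b z r l u d) :
    Move n (cfg n a) (cfg n b) := by
  have ex : ∀ p : Fin n × Fin n, ∃ c : Fin n × Fin n,
      (z p.1 p.2 → (c.1 : ℕ) = p.1 ∧ (c.2 : ℕ) = p.2) ∧
      (r p.1 p.2 → (c.1 : ℕ) = p.1 + 1 ∧ (c.2 : ℕ) = p.2) ∧
      (l p.1 p.2 → (c.1 : ℕ) + 1 = p.1 ∧ (c.2 : ℕ) = p.2) ∧
      (u p.1 p.2 → (c.1 : ℕ) = p.1 ∧ (c.2 : ℕ) = p.2 + 1) ∧
      (d p.1 p.2 → (c.1 : ℕ) = p.1 ∧ (c.2 : ℕ) + 1 = p.2) := by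
    rintro ⟨⟨x, hx⟩, ⟨y, hy⟩⟩
    obtain ⟨⟨-, h1, h2, h3, h4⟩, b1, b2, b3, b4, -⟩ := h x hx y hy
    by_cases c1 : r x y
    · exact ⟨(⟨x + 1, b1 c1⟩, ⟨y, hy⟩), by grind⟩
    by_cases c2 : l x y
    · exact ⟨(⟨x - 1, by omega⟩, ⟨y, hy⟩), by grind⟩
    by_cases c3 : u x y
    · exact ⟨(⟨x, hx⟩, ⟨y + 1, b3 c3⟩), by grind⟩
    by_cases c4 : d x y
    · exact ⟨(⟨x, hx⟩, ⟨y - 1, by omega⟩), by grind⟩
    exact ⟨(⟨x, hx⟩, ⟨y, hy⟩), by grind⟩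
  choose f hf using ex
  have T : ∀ p : Fin n × Fin n, a p.1 p.2 → ∀ X Y : ℕ, X = (f p).1 → Y = (f p).2 →
      (z X Y ∧ (p.1 : ℕ) = X ∧ (p.2 : ℕ) = Y) ∨
      ((0 < X ∧ r (X - 1) Y) ∧ (p.1 : ℕ) + 1 = X ∧ (p.2 : ℕ) = Y) ∨
      ((X + 1 < n ∧ l (X + 1) Y) ∧ (p.1 : ℕ) = X + 1 ∧ (p.2 : ℕ) = Y) ∨
      ((0 < Y ∧ u X (Y - 1)) ∧ (p.1 : ℕ) = X ∧ (p.2 : ℕ) + 1 = Y) ∨
      ((Y + 1 < n ∧ d X (Y + 1)) ∧ (p.1 : ℕ) = X ∧ (p.2 : ℕ) = Y + 1) := by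
    intro p hp X Y hX hY
    obtain ⟨f1, f2, f3, f4, f5⟩ := hf p
    rw [← hX, ← hY] at f1 f2 f3 f4 f5
    have h1 := p.1.2
    have h2 := p.2.2
    rcases (h _ p.1.2 _ p.2.2).1.1.1 hp with c | c | c | c | c
    · obtain ⟨e1, e2⟩ := f1 c
      left; rw [e1, e2]; exact ⟨c, rfl, rfl⟩
    · obtain ⟨e1, e2⟩ := f2 c
      right; left; rw [e1, e2]; exact ⟨⟨by omega, c⟩, rfl, rfl⟩
    · obtain ⟨e1, e2⟩ := f3 c
      right; right; left; rw [e1, e2]; exact ⟨⟨h1, c⟩, rfl, rfl⟩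
    · obtain ⟨e1, e2⟩ := f4 c
      right; right; right; left; rw [e1, e2]; exact ⟨⟨by omega, c⟩, rfl, rfl⟩
    · obtain ⟨e1, e2⟩ := f5 c
      right; right; right; right; rw [e1, e2]; exact ⟨⟨h2, c⟩, rfl, rfl⟩
  refine ⟨f, ?_, ?_, ?_⟩
  · intro p hp q hq e
    rw [mem_coe, mem_cfg] at hp hq
    have t1 := T p hp _ _ rfl rfl
    have t2 := T q hq _ _ (congrArg (fun c => (c.1 : ℕ)) e) (congrArg (fun c => (c.2 : ℕ)) e)
    have := inj_aux (h _ (f p).1.2 _ (f p).2.2).2.2.2.2.2 t1 t2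
    exact Prod.ext (Fin.ext this.1) (Fin.ext this.2)
  · ext c
    rw [mem_image, mem_cfg]
    have h0 := (h _ c.1.2 _ c.2.2).2.2.2.2.2.1
    constructor
    · rintro ⟨p, hp, rfl⟩
      rw [mem_cfg] at hp
      exact h0.2 ((T p hp _ _ rfl rfl).imp And.left <| Or.imp And.left <| Or.imp And.left <|
        Or.imp And.left And.left)
    · intro hc
      obtain ⟨⟨x, hx⟩, ⟨y, hy⟩⟩ := c
      have fin : ∀ (x' y' : ℕ) (hx' : x' < n) (hy' : y' < n),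
          (z x' y' ∨ r x' y' ∨ l x' y' ∨ u x' y' ∨ d x' y') →
          (((f (⟨x', hx'⟩, ⟨y', hy'⟩)).1 : ℕ) = x ∧ ((f (⟨x', hx'⟩, ⟨y', hy'⟩)).2 : ℕ) = y) →
          ∃ p ∈ cfg n a, f p = (⟨x, hx⟩, ⟨y, hy⟩) := fun x' y' hx' hy' h1 h2 =>
        ⟨(⟨x', hx'⟩, ⟨y', hy'⟩), (mem_cfg ..).2 ((h _ hx' _ hy').1.1.2 h1),
          Prod.ext (Fin.ext h2.1) (Fin.ext h2.2)⟩
      rcases h0.1 hc with c | c | c | c | c <;> simp only at c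
      · exact fin x y hx hy (by tauto) ((hf (⟨x, hx⟩, ⟨y, hy⟩)).1 c)
      · have := (hf (⟨x - 1, by omega⟩, ⟨y, hy⟩)).2.1 c.2
        exact fin (x - 1) y (by omega) hy (by tauto) (by simp only at this; omega)
      · have := (hf (⟨x + 1, by omega⟩, ⟨y, hy⟩)).2.2.1 c.2
        exact fin (x + 1) y (by omega) hy (by tauto) (by simp only at this; omega)
      · have := (hf (⟨x, hx⟩, ⟨y - 1, by omega⟩)).2.2.2.1 c.2
        exact fin x (y - 1) hx (by omega) (by tauto) (by simp only at this; omega)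
      · have := (hf (⟨x, hx⟩, ⟨y + 1, by omega⟩)).2.2.2.2 c.2
        exact fin x (y + 1) hx (by omega) (by tauto) (by simp only at this; omega)
  · intro p hp
    rw [mem_cfg] at hp
    have t1 := (T p hp _ _ rfl rfl).imp And.right <| Or.imp And.right <| Or.imp And.right <|
        Or.imp And.right And.right
    simp only [SimpleGraph.boxProd_adj, SimpleGraph.pathGraph_adj, Prod.ext_iff, Fin.ext_iff]
    omega

def kap (e x : ℕ) : ℕ := if x < 9 then x else if x < 9 + 5 * e then 4 + (x - 4) % 5 else x - 5 * e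

theorem kap_spec (m e x : ℕ) (hm : 13 ≤ m) (hx : x < m + 5 * e) :
    kap e x < m ∧ (x + 1 < m + 5 * e ↔ kap e x + 1 < m) ∧ (0 < x ↔ 0 < kap e x) ∧
    (kap e (x - 1) = kap e x - 1 ∨ (kap e x = 4 ∧ kap e (x - 1) = 8)) ∧
    (kap e (x + 1) = kap e x + 1 ∨ (kap e x = 8 ∧ kap e (x + 1) = 4)) := by
  unfold kap
  split_ifs <;> omega

def lf (e : ℕ) (a : ℕ → ℕ → Prop) (x y : ℕ) : Prop := a (kap e x) (kap e y)

theorem Mod.lift {m : ℕ} {a b z r l u d : ℕ → ℕ → Prop} (h : Mod m a b z r l u d) (hm : 13 ≤ m)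
    (c : ∀ v < m, (r 3 v ↔ r 8 v) ∧ (l 4 v ↔ l 9 v) ∧ (u v 3 ↔ u v 8) ∧ (d v 4 ↔ d v 9))
    (e : ℕ) :
    Mod (m + 5 * e) (lf e a) (lf e b) (lf e z) (lf e r) (lf e l) (lf e u) (lf e d) := by
  intro x hx y hy
  obtain ⟨x1, x2, x3, x4, x5⟩ := kap_spec m e x hm hx
  obtain ⟨y1, y2, y3, y4, y5⟩ := kap_spec m e y hm hy
  have h0 := h _ x1 _ y1
  have cx := c _ x1
  have cy := c _ y1
  have e1 : r (kap e (x - 1)) (kap e y) ↔ r (kap e x - 1) (kap e y) := by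
    rcases x4 with h | ⟨h, h'⟩
    · rw [h]
    · rw [h, h']; exact cy.1.symm
  have e2 : l (kap e (x + 1)) (kap e y) ↔ l (kap e x + 1) (kap e y) := by
    rcases x5 with h | ⟨h, h'⟩
    · rw [h]
    · rw [h, h']; exact cy.2.1
  have e3 : u (kap e x) (kap e (y - 1)) ↔ u (kap e x) (kap e y - 1) := by
    rcases y4 with h | ⟨h, h'⟩
    · rw [h]
    · rw [h, h']; exact cx.2.2.1.symm
  have e4 : d (kap e x) (kap e (y + 1)) ↔ d (kap e x) (kap e y + 1) := by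
    rcases y5 with h | ⟨h, h'⟩
    · rw [h]
    · rw [h, h']; exact cx.2.2.2
  simp only [lf, e1, e2, e3, e4, x2, x3, y2, y3]
  exact h0

theorem sum_kap (g : ℕ → ℕ) (m e : ℕ) (hm : 13 ≤ m) :
    ∑ x ∈ range (m + 5 * e), g (kap e x) =
      ∑ x ∈ range m, g x + e * ∑ j ∈ range 5, g (4 + j) := by
  obtain ⟨k, rfl⟩ : ∃ k, m = 9 + k := ⟨m - 9, by omega⟩
  have h1 : ∀ t, ∑ i ∈ range (5 * t), g (4 + i % 5) = t * ∑ j ∈ range 5, g (4 + j) := by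
    intro t
    induction t with
    | zero => simp
    | succ t ih =>
      rw [mul_add, sum_range_add, ih, add_mul, one_mul]
      congr 1
      exact sum_congr rfl fun j hj => by rw [mem_range] at hj; congr 2; omega
  rw [show 9 + k + 5 * e = 9 + 5 * e + k by omega, sum_range_add, sum_range_add, sum_range_add,
    ← h1]
  have a1 : ∑ x ∈ range 9, g (kap e x) = ∑ x ∈ range 9, g x :=
    sum_congr rfl fun j hj => by rw [mem_range] at hj; simp [kap, hj]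
  have a2 : ∑ x ∈ range (5 * e), g (kap e (9 + x)) = ∑ i ∈ range (5 * e), g (4 + i % 5) :=
    sum_congr rfl fun j hj => by
      rw [mem_range] at hj; congr 1; unfold kap; split_ifs <;> omega
  have a3 : ∑ x ∈ range k, g (kap e (9 + 5 * e + x)) = ∑ i ∈ range k, g (9 + i) :=
    sum_congr rfl fun j hj => by congr 1; unfold kap; split_ifs <;> omega
  omega

end Pool.Agent.H.MP_47ad0a_co
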