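import Pool.Agent.H.MP_47ad0a_co.D

set_option autoImplicit false

namespace Pool.Agent.H.MP_47ad0a_co

open Finset

def tb (A x y : ℕ) : Prop := A.testBit (18 * x + y) = true

def fb (n : ℕ) (f : ℕ → Bool) : Bool := Nat.rec (f 0) (fun k _ => f (Nat.succ k)) n

theorem fb_eq (n : ℕ) (f : ℕ → Bool) : fb n f = f n := by cases n <;> rfl

def one5 (S a b c d e : ℕ) : Bool :=
  Nat.beq (a &&& b) 0 && Nat.beq ((a ||| b) &&& c) 0 && Nat.beq ((a ||| b ||| c) &&& d) 0 &&
    Nat.beq ((a ||| b ||| c ||| d) &&& e) 0 && Nat.beq S (a ||| b ||| c ||| d ||| e)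

theorem one5_spec {S a b c d e : ℕ} (h : one5 S a b c d e = true) (i : ℕ) :
    One (S.testBit i = true) (a.testBit i = true) (b.testBit i = true) (c.testBit i = true)
      (d.testBit i = true) (e.testBit i = true) := by
  simp only [one5, Bool.and_eq_true, Nat.beq_eq] at h
  obtain ⟨⟨⟨⟨h1, h2⟩, h3⟩, h4⟩, h5⟩ := h
  have h1 := congrArg (·.testBit i) h1
  have h2 := congrArg (·.testBit i) h2
  have h3 := congrArg (·.testBit i) h3
  have h4 := congrArg (·.testBit i) h4
  have h5 := congrArg (·.testBit i) h5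
  simp only [Nat.testBit_and, Nat.testBit_or, Nat.zero_testBit] at h1 h2 h3 h4 h5
  unfold One
  rw [h5]
  revert h1 h2 h3 h4
  cases a.testBit i <;> cases b.testBit i <;> cases c.testBit i <;> cases d.testBit i <;>
    cases e.testBit i <;> simp

def cm (k : ℕ) : ℕ := (2 ^ (18 * k) - 1) / (2 ^ 18 - 1)
def gR (m : ℕ) : ℕ := cm (m - 1) * (2 ^ m - 1)
def gL (m : ℕ) : ℕ := gR m <<< 18
def gU (m : ℕ) : ℕ := cm m * (2 ^ (m - 1) - 1)
def gD (m : ℕ) : ℕ := gU m <<< 1
def gF (m : ℕ) : ℕ := cm m * (2 ^ m - 1)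

set_option synthInstance.maxSize 4096 in
theorem g_spec : ∀ m < 18, 13 ≤ m → ∀ u < 19, ∀ v < 18,
    ((gR m).testBit (18 * u + v) = true → u + 1 < m) ∧
    ((gL m).testBit (18 * u + v) = true → 0 < u ∧ u < m) ∧
    ((gU m).testBit (18 * u + v) = true → v + 1 < m) ∧
    ((gD m).testBit (18 * u + v) = true → 0 < v ∧ v < m) ∧
    (u < m → (cm m).testBit (18 * u) = true) ∧
    (u < m → v < m → (gF m).testBit (18 * u + v) = true) := by
  decide +kernel

def chk (m A B R L U D : ℕ) : Bool :=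
  fb (A ^^^ (R ||| L ||| U ||| D)) fun Z =>
  one5 A Z R L U D && one5 B Z (R <<< 18) (L >>> 18) (U <<< 1) (D >>> 1) &&
    Nat.beq (R &&& gR m) R && Nat.beq (L &&& gL m) L && Nat.beq (U &&& gU m) U &&
    Nat.beq (D &&& gD m) D &&
    Nat.beq ((R >>> 54) % 2 ^ 18) ((R >>> 144) % 2 ^ 18) &&
    Nat.beq ((L >>> 72) % 2 ^ 18) ((L >>> 162) % 2 ^ 18) &&
    Nat.beq ((U >>> 3) &&& cm m) ((U >>> 8) &&& cm m) &&
    Nat.beq ((D >>> 4) &&& cm m) ((D >>> 9) &&& cm m)

def Tr (m A B : ℕ) : Prop :=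
  ∀ e, Move (m + 5 * e) (cfg _ (lf e (tb A))) (cfg _ (lf e (tb B)))

theorem sub_bit {R G i : ℕ} (h : R &&& G = R) (hi : R.testBit i = true) : G.testBit i = true := by
  have := congrArg (·.testBit i) h
  simpa [hi] using this

theorem chk_spec {m A B R L U D : ℕ} (h1 : m < 18) (h2 : 13 ≤ m)
    (h : chk m A B R L U D = true) : Tr m A B := by
  unfold chk at h
  rw [fb_eq] at h
  generalize A ^^^ (R ||| L ||| U ||| D) = Z at h
  simp only [Bool.and_eq_true, Nat.beq_eq] at h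
  obtain ⟨⟨⟨⟨⟨⟨⟨⟨⟨c1, c2⟩, c3⟩, c4⟩, c5⟩, c6⟩, c7⟩, c8⟩, c9⟩, c10⟩ := h
  have G := g_spec m h1 h2
  have hM : Mod m (tb A) (tb B) (tb Z) (tb R) (tb L) (tb U) (tb D) := by
    intro x hx y hy
    have g0 := G x (by omega) y (by omega)
    refine ⟨one5_spec c1 _, fun h => g0.1 (sub_bit c3 h), fun h => (g0.2.1 (sub_bit c4 h)).1,
      fun h => g0.2.2.1 (sub_bit c5 h), fun h => (g0.2.2.2.1 (sub_bit c6 h)).1, ?_⟩
    have o := one5_spec c2 (18 * x + y)
    have e1 : (R <<< 18).testBit (18 * x + y) = true ↔ 0 < x ∧ tb R (x - 1) y := by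
      rw [Nat.testBit_shiftLeft, Bool.and_eq_true, decide_eq_true_iff, tb]
      rcases x with _ | x
      · simp; omega
      · simp [show 18 * (x + 1) + y - 18 = 18 * x + y by omega]; omega
    have e2 : (L >>> 18).testBit (18 * x + y) = true ↔ x + 1 < m ∧ tb L (x + 1) y := by
      rw [Nat.testBit_shiftRight, tb, show 18 + (18 * x + y) = 18 * (x + 1) + y by omega]
      exact ⟨fun h => ⟨((G (x + 1) (by omega) y (by omega)).2.1 (sub_bit c4 h)).2, h⟩,
        fun h => h.2⟩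
    have e3 : (U <<< 1).testBit (18 * x + y) = true ↔ 0 < y ∧ tb U x (y - 1) := by
      rw [Nat.testBit_shiftLeft, Bool.and_eq_true, decide_eq_true_iff, tb]
      rcases y with _ | y
      · refine ⟨fun h => ?_, fun h => by omega⟩
        have h3 := h.2
        rw [show 18 * x + 0 - 1 = 18 * (x - 1) + 17 by omega] at h3
        have := (G (x - 1) (by omega) 17 (by omega)).2.2.1 (sub_bit c5 h3)
        omega
      · simp [show 18 * x + (y + 1) - 1 = 18 * x + y by omega]; omega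
    have e4 : (D >>> 1).testBit (18 * x + y) = true ↔ y + 1 < m ∧ tb D x (y + 1) := by
      rw [Nat.testBit_shiftRight, tb, show 1 + (18 * x + y) = 18 * x + (y + 1) by omega]
      exact ⟨fun h => ⟨((G x (by omega) (y + 1) (by omega)).2.2.2.1 (sub_bit c6 h)).2, h⟩,
        fun h => h.2⟩
    rw [e1, e2, e3, e4] at o
    exact o
  intro e
  refine move_of_mod (hM.lift h2 (fun v hv => ?_) e)
  have d7 := congrArg (·.testBit v) c7
  have d8 := congrArg (·.testBit v) c8
  have d9 := congrArg (·.testBit (18 * v)) c9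
  have d10 := congrArg (·.testBit (18 * v)) c10
  have g0 := (G v (by omega) 0 (by omega)).2.2.2.2.1 hv
  simp only [Nat.testBit_mod_two_pow, Nat.testBit_shiftRight, Nat.testBit_and, g0, Bool.and_true,
    decide_eq_true (show v < 18 by omega), Bool.true_and] at d7 d8 d9 d10
  simp only [tb, add_comm (18 * v)]
  exact ⟨by rw [← d7], by rw [← d8], by rw [d9], by rw [d10]⟩

def stt (T j : ℕ) : ℕ := (T >>> (324 * j)) % 2 ^ 324

def chkT (m T K A w : ℕ) : Bool :=
  Nat.blt (w >>> 1296) K && fb (stt T (w >>> 1296)) fun B => fb (w % 2 ^ 324) fun R =>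
    fb ((w >>> 324) % 2 ^ 324) fun L => fb ((w >>> 648) % 2 ^ 324) fun U =>
      fb ((w >>> 972) % 2 ^ 324) fun D => chk m A B R L U D

def cov (T A : ℕ) (ws : List ℕ) : ℕ := ws.foldr (fun w acc => stt T (w >>> 1296) ||| acc) A

def chkS (m T K i : ℕ) (ws : List ℕ) : Bool :=
  fb (stt T i) fun A => ws.all (chkT m T K A) && Nat.beq (gF m &&& cov T A ws) (gF m)

def chkA (m T K : ℕ) : List (List ℕ) → ℕ → Bool
  | [], _ => true
  | ws :: l, i => chkS m T K i ws && chkA m T K l (i + 1)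

def Good (m T K i : ℕ) : Prop :=
  ∀ x < m, ∀ y < m, ∃ j < K, tb (stt T j) x y ∧ Tr m (stt T i) (stt T j)

theorem chkS_spec {m T K i : ℕ} {ws : List ℕ} (h1 : m < 18) (h2 : 13 ≤ m) (hi : i < K)
    (h : chkS m T K i ws = true) : Good m T K i := by
  unfold chkS at h
  rw [fb_eq, Bool.and_eq_true, Nat.beq_eq, List.all_eq_true] at h
  intro x hx y hy
  have h3 := sub_bit h.2 ((g_spec m h1 h2 x (by omega) y (by omega)).2.2.2.2.2 hx hy)
  have h4 := h.1
  clear h
  induction ws with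
  | nil => exact ⟨i, hi, h3, fun e => ⟨id, Set.injOn_id _, image_id, fun _ _ => Or.inl rfl⟩⟩
  | cons w ws ih =>
    rw [cov, List.foldr_cons, Nat.testBit_or, Bool.or_eq_true] at h3
    rcases h3 with h3 | h3
    · have := h4 w List.mem_cons_self
      simp only [chkT, fb_eq, Bool.and_eq_true, Nat.blt_eq] at this
      exact ⟨_, this.1, h3, chk_spec h1 h2 this.2⟩
    · exact ih h3 fun w hw => h4 w (List.mem_cons_of_mem _ hw)

theorem chkA_spec {m T K : ℕ} (h1 : m < 18) (h2 : 13 ≤ m) (l : List (List ℕ)) :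
    ∀ i, i + l.length ≤ K → chkA m T K l i = true → ∀ j, i ≤ j → j < i + l.length →
      Good m T K j := by
  induction l with
  | nil => intro i _ _ j a b; simp at b; omega
  | cons ws l ih =>
    intro i hi h j a b
    rw [chkA, Bool.and_eq_true] at h
    rw [List.length_cons] at hi b
    rcases a.eq_or_lt with rfl | a
    · exact chkS_spec h1 h2 (by omega) h.1
    · exact ih (i + 1) (by omega) h.2 j a (by omega)

def ind (A x y : ℕ) : ℕ := (A.testBit (18 * x + y)).toNat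

def Cnt (m A : ℕ) : Prop :=
  ∑ x ∈ range m, ∑ y ∈ range m, ind A x y ≤ 289 ∧
  ∑ x ∈ range m, ∑ y ∈ range 5, ind A x (4 + y) = m + 2 ∧
  ∑ x ∈ range 5, ∑ y ∈ range m, ind A (4 + x) y = m + 2 ∧
  ∑ x ∈ range 5, ∑ y ∈ range 5, ind A (4 + x) (4 + y) = 5

instance (m A : ℕ) : Decidable (Cnt m A) := by unfold Cnt; infer_instance

theorem card_cfg (n : ℕ) (E : ℕ → ℕ → Bool) :
    (cfg n fun x y => E x y = true).card = ∑ x ∈ range n, ∑ y ∈ range n, (E x y).toNat := by
  classical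
  rw [cfg, card_filter, Fintype.sum_prod_type, ← Fin.sum_univ_eq_sum_range
    (fun x => ∑ y ∈ range n, (E x y).toNat)]
  refine sum_congr rfl fun x _ => ?_
  rw [← Fin.sum_univ_eq_sum_range (fun y => (E x y).toNat)]
  refine sum_congr rfl fun y _ => ?_
  cases E x y <;> simp

theorem card_le {m A : ℕ} (h2 : 13 ≤ m) (h : Cnt m A) (e : ℕ) :
    5 * (cfg (m + 5 * e) (lf e (tb A))).card ≤ (m + 5 * e) ^ 2 + 4 * (m + 5 * e) + 1445 := by
  have := card_cfg (m + 5 * e) fun x y => A.testBit (18 * kap e x + kap e y)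
  have e1 : ∀ x, ∑ y ∈ range (m + 5 * e), (A.testBit (18 * kap e x + kap e y)).toNat =
      ∑ y ∈ range m, ind A (kap e x) y + e * ∑ j ∈ range 5, ind A (kap e x) (4 + j) :=
    fun x => sum_kap (fun y => ind A (kap e x) y) m e h2
  simp only [e1] at this
  rw [sum_kap (fun x => ∑ y ∈ range m, ind A x y + e * ∑ j ∈ range 5, ind A x (4 + j)) m e h2,
    sum_add_distrib, sum_add_distrib, ← mul_sum, ← mul_sum, h.2.1, h.2.2.1, h.2.2.2] at this
  have h1 := h.1
  change (cfg (m + 5 * e) (lf e (tb A))).card = _ at this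
  rw [this]
  nlinarith

def Res (m : ℕ) : Prop := ∃ T K, 0 < K ∧ (∀ j < K, Good m T K j) ∧ Cnt m (stt T 0)

theorem res_of {m T : ℕ} {l : List (List ℕ)} (h1 : m < 18) (h2 : 13 ≤ m) (K : ℕ)
    (h : (chkA m T K l 0 && Nat.beq l.length K && Nat.blt 0 K && decide (Cnt m (stt T 0))) = true) :
    Res m := by
  simp only [Bool.and_eq_true, Nat.beq_eq, Nat.blt_eq, decide_eq_true_iff] at h
  exact ⟨T, K, h.1.2, fun j hj => chkA_spec h1 h2 l 0 (by omega) h.1.1.1 j (by omega) (by omega),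
    h.2⟩

end Pool.Agent.H.MP_47ad0a_co
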